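import Mathlib

/-!
# LS: the frame of one step of the local search bound
-/

set_option autoImplicit false

namespace Pool.Agent.Helper58.LS

variable {E : Type} [DecidableEq E]

/-- Extension of an independent set inside another one. -/
theorem ext_lemma (M : Matroid E) {I J : Finset E} (hI : M.Indep (I : Set E))
    (hJ : M.Indep (J : Set E)) :
    ∃ T : Finset E, T ⊆ J \ I ∧ M.Indep ((I ∪ T : Finset E) : Set E) ∧
      J.card ≤ I.card + T.card := by
  classical
  obtain ⟨T, hT, hmax⟩ := Finset.exists_max_image
    ((J \ I).powerset.filter fun T => M.Indep ((I ∪ T : Finset E) : Set E)) Finset.card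
    ⟨∅, by simpa using hI⟩
  rw [Finset.mem_filter, Finset.mem_powerset] at hT
  refine ⟨T, hT.1, hT.2, ?_⟩
  by_contra hlt
  push Not at hlt
  have hcard : (I ∪ T).card < J.card := lt_of_le_of_lt (Finset.card_union_le _ _) hlt
  obtain ⟨e, heJ, heI, he⟩ := hT.2.augment_finset hJ hcard
  have h1 := hmax (insert e T) (by
    rw [Finset.mem_filter, Finset.mem_powerset]
    refine ⟨Finset.insert_subset
      (Finset.mem_sdiff.2 ⟨heJ, fun h => heI (Finset.mem_union_left _ h)⟩) hT.1, ?_⟩
    rw [Finset.union_insert, Finset.coe_insert]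
    exact he)
  rw [Finset.card_insert_of_notMem (fun h => heI (Finset.mem_union_right _ h))] at h1
  omega

/-- The data of one matroid: a maximal extension `V` of `B` in `S`. -/
theorem one_matroid (M : Matroid E) {B S : Finset E} (hB : M.Indep (B : Set E))
    (hS : M.Indep (S : Set E)) :
    ∃ V : Finset E, V ⊆ S \ B ∧ M.Indep ((B ∪ V : Finset E) : Set E) ∧
      ((S \ B) \ V).card ≤ (B \ S).card ∧
      ∀ F : Finset E, F ⊆ (S \ B) \ V → ∃ Y : Finset E, Y ⊆ B \ S ∧ Y.card = F.card ∧
        M.Indep (((B \ Y) ∪ (V ∪ F) : Finset E) : Set E) ∧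
        ∀ y ∈ Y, ∃ e ∈ F, M.Indep ((insert e ((B ∪ V).erase y) : Finset E) : Set E) := by
  classical
  obtain ⟨V, hV, hmax⟩ := Finset.exists_max_image
    ((S \ B).powerset.filter fun T => M.Indep ((B ∪ T : Finset E) : Set E)) Finset.card
    ⟨∅, by simpa using hB⟩
  rw [Finset.mem_filter, Finset.mem_powerset] at hV
  obtain ⟨hVS, hVI⟩ := hV
  have hdBV : Disjoint B V := by
    rw [Finset.disjoint_left]
    intro e he hv
    exact (Finset.mem_sdiff.1 (hVS hv)).2 he
  have hcBV : (B ∪ V).card = B.card + V.card := Finset.card_union_of_disjoint hdBV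
  -- the rank of `B ∪ S`
  have hrank : ∀ J : Finset E, J ⊆ B ∪ S → M.Indep (J : Set E) → J.card ≤ B.card + V.card := by
    intro J hJ hJI
    by_contra hlt
    push Not at hlt
    rw [← hcBV] at hlt
    obtain ⟨e, heJ, heI, he⟩ := hVI.augment_finset hJI hlt
    have heB : e ∉ B := fun h => heI (Finset.mem_union_left _ h)
    have heV : e ∉ V := fun h => heI (Finset.mem_union_right _ h)
    have heS : e ∈ S := (Finset.mem_union.1 (hJ heJ)).resolve_left heB
    have h1 := hmax (insert e V) (by
      rw [Finset.mem_filter, Finset.mem_powerset]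
      refine ⟨Finset.insert_subset (Finset.mem_sdiff.2 ⟨heS, heB⟩) hVS, ?_⟩
      rw [Finset.union_insert, Finset.coe_insert]
      exact he)
    rw [Finset.card_insert_of_notMem heV] at h1
    omega
  have hSB : (S \ B).card + (S ∩ B).card = S.card := Finset.card_sdiff_add_card_inter S B
  have hBS : (B \ S).card + (B ∩ S).card = B.card := Finset.card_sdiff_add_card_inter B S
  have hcomm : (S ∩ B).card = (B ∩ S).card := by rw [Finset.inter_comm]
  refine ⟨V, hVS, hVI, ?_, fun F hF => ?_⟩
  · have h1 := hrank S Finset.subset_union_right hS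
    rw [Finset.card_sdiff_of_subset hVS]
    omega
  · have hFS : F ⊆ S := fun e he => (Finset.mem_sdiff.1 (Finset.mem_sdiff.1 (hF he)).1).1
    have hVS' : V ⊆ S := fun e he => (Finset.mem_sdiff.1 (hVS he)).1
    have hFB : ∀ e ∈ F, e ∉ B := fun e he => (Finset.mem_sdiff.1 (Finset.mem_sdiff.1 (hF he)).1).2
    have hFV : ∀ e ∈ F, e ∉ V := fun e he => (Finset.mem_sdiff.1 (hF he)).2
    set I : Finset E := (V ∪ F) ∪ (B ∩ S) with hI
    have hIS : I ⊆ S := Finset.union_subset (Finset.union_subset hVS' hFS) Finset.inter_subset_right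
    have hII : M.Indep (I : Set E) := hS.subset (by exact_mod_cast hIS)
    have hdVF : Disjoint V F := by
      rw [Finset.disjoint_left]
      intro e he hf
      exact hFV e hf he
    have hcI : I.card = V.card + F.card + (B ∩ S).card := by
      rw [hI, Finset.card_union_of_disjoint, Finset.card_union_of_disjoint hdVF]
      rw [Finset.disjoint_left]
      intro e he hb
      have hb' := (Finset.mem_inter.1 hb).1
      rcases Finset.mem_union.1 he with h | h
      · exact (Finset.disjoint_left.1 hdBV) hb' h
      · exact hFB e h hb'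
    obtain ⟨T, hT, hTI, hTc⟩ := ext_lemma M hII hVI
    have hTB : T ⊆ B \ S := by
      intro e he
      have h1 := Finset.mem_sdiff.1 (hT he)
      have h2 : e ∉ V := fun h => h1.2 (by rw [hI]; simp [h])
      have h3 : e ∈ B := (Finset.mem_union.1 h1.1).resolve_right h2
      refine Finset.mem_sdiff.2 ⟨h3, fun h => h1.2 ?_⟩
      rw [hI]
      exact Finset.mem_union_right _ (Finset.mem_inter.2 ⟨h3, h⟩)
    have hdIT : Disjoint I T := by
      rw [Finset.disjoint_left]
      intro e he ht
      exact (Finset.mem_sdiff.1 (hT ht)).2 he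
    have hcIT : (I ∪ T).card = I.card + T.card := Finset.card_union_of_disjoint hdIT
    have hle := hrank (I ∪ T) (Finset.union_subset (hIS.trans Finset.subset_union_right)
      (fun e he => Finset.mem_union_left _ (Finset.mem_sdiff.1 (hTB he)).1)) hTI
    have hTc' : T.card ≤ (B \ S).card := Finset.card_le_card hTB
    refine ⟨(B \ S) \ T, Finset.sdiff_subset, ?_, ?_, ?_⟩
    · rw [Finset.card_sdiff_of_subset hTB]
      omega
    · refine hTI.subset ?_
      have : (B \ ((B \ S) \ T)) ∪ (V ∪ F) ⊆ I ∪ T := by
        intro e he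
        rw [hI]
        simp only [Finset.mem_union, Finset.mem_sdiff, Finset.mem_inter] at he ⊢
        tauto
      exact_mod_cast this
    · intro y hy
      have hyBS := (Finset.mem_sdiff.1 hy).1
      have hyB := (Finset.mem_sdiff.1 hyBS).1
      have hyS := (Finset.mem_sdiff.1 hyBS).2
      have hyT := (Finset.mem_sdiff.1 hy).2
      have hPI : M.Indep (((B ∪ V).erase y : Finset E) : Set E) :=
        hVI.subset (by exact_mod_cast Finset.erase_subset _ _)
      have hPc : ((B ∪ V).erase y).card + 1 = B.card + V.card := by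
        rw [← hcBV]
        exact Finset.card_erase_add_one (Finset.mem_union_left _ hyB)
      obtain ⟨e, heJ, heP, he⟩ := hPI.augment_finset hTI (by omega)
      refine ⟨e, ?_, by rw [Finset.coe_insert]; exact he⟩
      by_contra heF
      apply heP
      rw [Finset.mem_erase]
      have hyI : y ∉ I := fun h => hyS (hIS h)
      refine ⟨?_, ?_⟩
      · rintro rfl
        rcases Finset.mem_union.1 heJ with h | h
        · exact hyI h
        · exact hyT h
      · rcases Finset.mem_union.1 heJ with h | h
        · rw [hI] at h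
          simp only [Finset.mem_union, Finset.mem_inter] at h ⊢
          tauto
        · exact Finset.mem_union_left _ (Finset.mem_sdiff.1 (hTB h)).1

theorem frame {k : ℕ} (M : Fin k → Matroid E) {B S : Finset E}
    (hB : ∀ l, (M l).Indep (B : Set E)) (hS : ∀ l, (M l).Indep (S : Set E))
    (h1 : ∀ e ∈ S \ B, ¬ ∀ l, (M l).Indep ((insert e B : Finset E) : Set E))
    (h2 : ∀ y ∈ B, ∀ e ∈ S \ B, ∀ e' ∈ S \ B, e ≠ e' →
      ¬ ∀ l, (M l).Indep ((B.erase y ∪ {e, e'} : Finset E) : Set E)) :
    ∃ Fl Yl : Fin k → Finset E, (∀ l, Fl l ⊆ S \ B) ∧ (∀ l, Yl l ⊆ B \ S) ∧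
      (∀ l m, l ≠ m → Disjoint (Fl l) (Fl m)) ∧ (∀ l m, l ≠ m → Disjoint (Yl l) (Yl m)) ∧
      (∀ l, (Yl l).card = (Fl l).card) ∧
      (∀ l, (M l).Indep ((B ∪ (Finset.univ.biUnion Fl \ Fl l) : Finset E) : Set E)) ∧
      (∀ l, (M l).Indep (((B \ Yl l) ∪ Finset.univ.biUnion Fl : Finset E) : Set E)) ∧
      2 * (S \ B).card ≤ k * (B \ S).card + (Finset.univ.biUnion Fl).card := by
  classical
  choose V hVS hVI hVc hVY using fun l => one_matroid (M l) (hB l) (hS l)
  set Fl : Fin k → Finset E := fun l => (S \ B).filter fun e => e ∉ V l ∧ ∀ j, j ≠ l → e ∈ V j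
    with hFl
  have hFsub : ∀ l, Fl l ⊆ (S \ B) \ V l := by
    intro l e he
    rw [hFl, Finset.mem_filter] at he
    exact Finset.mem_sdiff.2 ⟨he.1, he.2.1⟩
  choose Yl hYS hYc hYI hYx using fun l => hVY l (Fl l) (hFsub l)
  have hFV : ∀ l m, l ≠ m → Fl m ⊆ V l := by
    intro l m hlm e he
    rw [hFl, Finset.mem_filter] at he
    exact he.2.2 l hlm
  have hFd : ∀ l m, l ≠ m → Disjoint (Fl l) (Fl m) := by
    intro l m hlm
    rw [Finset.disjoint_left]
    intro e he he'
    exact (Finset.mem_sdiff.1 (hFsub l he)).2 (hFV l m hlm he')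
  have hFS : ∀ l, Fl l ⊆ S \ B := fun l => (hFsub l).trans Finset.sdiff_subset
  have hmemF : ∀ {e : E}, e ∈ Finset.univ.biUnion Fl → ∃ m, e ∈ Fl m := by
    intro e he
    obtain ⟨m, _, hm⟩ := Finset.mem_biUnion.1 he
    exact ⟨m, hm⟩
  refine ⟨Fl, Yl, hFS, hYS, hFd, ?_, hYc, ?_, ?_, ?_⟩
  · intro l m hlm
    rw [Finset.disjoint_left]
    intro y hy hy'
    obtain ⟨e, he, heI⟩ := hYx l y hy
    obtain ⟨e', he', heI'⟩ := hYx m y hy'
    have hne : e ≠ e' := by
      rintro rfl
      exact (Finset.disjoint_left.1 (hFd l m hlm)) he he'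
    have hyBS := hYS l hy
    have hyB := (Finset.mem_sdiff.1 hyBS).1
    have hey : e ≠ y := by
      rintro rfl
      exact (Finset.mem_sdiff.1 (hFS l he)).2 hyB
    have hey' : e' ≠ y := by
      rintro rfl
      exact (Finset.mem_sdiff.1 (hFS m he')).2 hyB
    refine h2 y hyB e (hFS l he) e' (hFS m he') hne fun j => ?_
    by_cases hjl : j = l
    · subst hjl
      refine heI.subset ?_
      have h3 : e' ∈ V j := hFV j m hlm he'
      have : B.erase y ∪ {e, e'} ⊆ insert e ((B ∪ V j).erase y) := by
        intro z hz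
        simp only [Finset.mem_union, Finset.mem_erase, Finset.mem_insert,
          Finset.mem_singleton] at hz ⊢
        rcases hz with hz | hz | hz
        · exact Or.inr ⟨hz.1, Or.inl hz.2⟩
        · exact Or.inl hz
        · subst hz; exact Or.inr ⟨hey', Or.inr h3⟩
      exact_mod_cast this
    · by_cases hjm : j = m
      · subst hjm
        refine heI'.subset ?_
        have h3 : e ∈ V j := hFV j l hjl he
        have : B.erase y ∪ {e, e'} ⊆ insert e' ((B ∪ V j).erase y) := by
          intro z hz
          simp only [Finset.mem_union, Finset.mem_erase, Finset.mem_insert,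
            Finset.mem_singleton] at hz ⊢
          rcases hz with hz | hz | hz
          · exact Or.inr ⟨hz.1, Or.inl hz.2⟩
          · subst hz; exact Or.inr ⟨hey, Or.inr h3⟩
          · exact Or.inl hz
        exact_mod_cast this
      · refine (hVI j).subset ?_
        have h3 : e ∈ V j := hFV j l hjl he
        have h4 : e' ∈ V j := hFV j m hjm he'
        have : B.erase y ∪ {e, e'} ⊆ B ∪ V j := by
          intro z hz
          simp only [Finset.mem_union, Finset.mem_erase, Finset.mem_insert,
            Finset.mem_singleton] at hz ⊢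
          rcases hz with hz | hz | hz
          · exact Or.inl hz.2
          · subst hz; exact Or.inr h3
          · subst hz; exact Or.inr h4
        exact_mod_cast this
  · intro l
    refine (hVI l).subset ?_
    have : B ∪ (Finset.univ.biUnion Fl \ Fl l) ⊆ B ∪ V l := by
      refine Finset.union_subset_union (Finset.Subset.refl _) ?_
      intro e he
      obtain ⟨m, hm⟩ := hmemF (Finset.mem_sdiff.1 he).1
      refine hFV l m ?_ hm
      rintro rfl
      exact (Finset.mem_sdiff.1 he).2 hm
    exact_mod_cast this
  · intro l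
    refine (hYI l).subset ?_
    have : (B \ Yl l) ∪ Finset.univ.biUnion Fl ⊆ (B \ Yl l) ∪ (V l ∪ Fl l) := by
      refine Finset.union_subset_union (Finset.Subset.refl _) ?_
      intro e he
      obtain ⟨m, hm⟩ := hmemF he
      by_cases hlm : l = m
      · subst hlm; exact Finset.mem_union_right _ hm
      · exact Finset.mem_union_left _ (hFV l m hlm hm)
    exact_mod_cast this
  · -- counting
    have hsum : ∑ l : Fin k, ((S \ B) \ V l).card =
        ∑ e ∈ S \ B, (Finset.univ.filter fun l : Fin k => e ∉ V l).card := by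
      have : ∀ l : Fin k, ((S \ B) \ V l).card = ∑ e ∈ S \ B, if e ∉ V l then 1 else 0 := by
        intro l
        rw [← Finset.filter_notMem_eq_sdiff, Finset.card_filter]
      rw [Finset.sum_congr rfl fun l _ => this l, Finset.sum_comm]
      refine Finset.sum_congr rfl fun e _ => ?_
      rw [Finset.card_filter]
    have hFc : (Finset.univ.biUnion Fl).card =
        ∑ e ∈ S \ B, if e ∈ Finset.univ.biUnion Fl then 1 else 0 := by
      rw [← Finset.card_filter]
      congr 1
      ext e
      rw [Finset.mem_filter]
      constructor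
      · intro he
        obtain ⟨m, hm⟩ := hmemF he
        exact ⟨hFS m hm, he⟩
      · exact fun he => he.2
    have hsum' : ∑ l : Fin k, ((S \ B) \ V l).card ≤ k * (B \ S).card := by
      refine (Finset.sum_le_card_nsmul _ _ _ fun l _ => hVc l).trans (le_of_eq ?_)
      rw [Finset.card_univ, Fintype.card_fin, smul_eq_mul]
    have hpt : ∀ e ∈ S \ B, 2 ≤ (Finset.univ.filter fun l : Fin k => e ∉ V l).card +
        if e ∈ Finset.univ.biUnion Fl then 1 else 0 := by
      intro e he
      by_contra hlt
      push Not at hlt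
      have hc0 : (Finset.univ.filter fun l : Fin k => e ∉ V l).card ≠ 0 := by
        intro h0
        rw [Finset.card_eq_zero, Finset.filter_eq_empty_iff] at h0
        refine h1 e he fun l => (hVI l).subset ?_
        have h3 : e ∈ V l := by
          have := h0 (Finset.mem_univ l)
          simpa using this
        have : insert e B ⊆ B ∪ V l := Finset.insert_subset (Finset.mem_union_right _ h3)
          Finset.subset_union_left
        exact_mod_cast this
      have hc1 : (Finset.univ.filter fun l : Fin k => e ∉ V l).card = 1 := by omega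
      obtain ⟨l, hl⟩ := Finset.card_eq_one.1 hc1
      have hel : e ∈ Fl l := by
        rw [hFl, Finset.mem_filter]
        refine ⟨he, ?_, fun j hj => ?_⟩
        · have : l ∈ Finset.univ.filter fun l : Fin k => e ∉ V l := by
            rw [hl]; exact Finset.mem_singleton_self l
          exact (Finset.mem_filter.1 this).2
        · by_contra hjV
          have : j ∈ Finset.univ.filter fun l : Fin k => e ∉ V l :=
            Finset.mem_filter.2 ⟨Finset.mem_univ _, hjV⟩
          rw [hl, Finset.mem_singleton] at this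
          exact hj this
      have hin : e ∈ Finset.univ.biUnion Fl := Finset.mem_biUnion.2 ⟨l, Finset.mem_univ _, hel⟩
      rw [if_pos hin] at hlt
      omega
    have := Finset.sum_le_sum hpt
    rw [Finset.sum_const, smul_eq_mul, Finset.sum_add_distrib, ← hsum, ← hFc] at this
    omega

end Pool.Agent.Helper58.LS
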