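import Mathlib

/-!
# LS: the numeric iteration of the local search bounds
-/

set_option autoImplicit false

namespace Pool.Agent.Helper58.LS

/-- If `P k` and `P β` implies `P ((k + (2 β - k) / (2 β - 1)) / 2)` for `k / 2 < β ≤ k`, then `P β`
for some `β` as close to `k / 2` as we like. -/
theorem iter_to_half {k : ℝ} (hk : 2 ≤ k) (P : ℝ → Prop) (h0 : P k)
    (hstep : ∀ β : ℝ, k / 2 < β → β ≤ k → P β → P ((k + (2 * β - k) / (2 * β - 1)) / 2))
    {d : ℝ} (hd : 0 < d) : ∃ β : ℝ, k / 2 < β ∧ β ≤ k / 2 + d ∧ P β := by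
  have key : ∀ j : ℕ, ∃ t : ℝ, 0 < t ∧ t ≤ k / 2 ∧ 2 * j ≤ 1 / t ∧ P (k / 2 + t) := by
    intro j
    induction j with
    | zero =>
      refine ⟨k / 2, by linarith, le_rfl, ?_, ?_⟩
      · have : 0 < 1 / (k / 2) := by positivity
        simpa using this.le
      · have : k / 2 + k / 2 = k := by ring
        rw [this]; exact h0
    | succ j ih =>
      obtain ⟨t, ht0, htk, htj, hP⟩ := ih
      have hden : 0 < k - 1 + 2 * t := by linarith
      refine ⟨t / (k - 1 + 2 * t), by positivity, ?_, ?_, ?_⟩
      · rw [div_le_iff₀ hden]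
        nlinarith
      · rw [one_div_div]
        have h1 : (k - 1 + 2 * t) / t = (k - 1) * (1 / t) + 2 := by
          field_simp
        rw [h1]
        have h2 : 0 < 1 / t := by positivity
        push_cast
        nlinarith
      · have h1 := hstep (k / 2 + t) (by linarith) (by linarith) hP
        have h2 : (k + (2 * (k / 2 + t) - k) / (2 * (k / 2 + t) - 1)) / 2 =
            k / 2 + t / (k - 1 + 2 * t) := by
          have e1 : 2 * (k / 2 + t) - k = 2 * t := by ring
          have e2 : 2 * (k / 2 + t) - 1 = k - 1 + 2 * t := by ring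
          rw [e1, e2]
          ring
        rw [h2] at h1
        exact h1
  obtain ⟨j, hj⟩ := exists_nat_gt (1 / d)
  obtain ⟨t, ht0, _, htj, hP⟩ := key j
  refine ⟨k / 2 + t, by linarith, ?_, hP⟩
  have h1 : 1 / d < 1 / t := by
    have : (0 : ℝ) ≤ j := Nat.cast_nonneg j
    linarith
  have h2 : t < d := by
    rwa [one_div_lt_one_div hd ht0] at h1
  linarith

end Pool.Agent.Helper58.LS
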